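import Pool.Agent.V5helper30.W3.Stm

/-!
# Project W3: the numbers
-/

set_option autoImplicit false

namespace Pool.Agent.V5helper30.W3

theorem num (horb : S_ORB) (hcnt : S_CNT) {d k t : ℕ} (ht : Odd t) (ht3 : 3 ≤ t) (hk : 3 ≤ k)
    (h : |(2 * d : ℤ) - t * (k + 3)| ≤ 2) (h37 : (k = 3 ∨ k = 7) → 2 * d = t * (k + 3)) :
    ∃ i, oo d k (i + 1) < oo d k i ∧ ss d k i < ss d k (i + 1) := by
  obtain ⟨r, rfl⟩ : ∃ r, t = 2 * r + 3 := by
    obtain ⟨q, hq⟩ := ht
    exact ⟨q - 1, by omega⟩
  obtain ⟨u, hu⟩ : ∃ u : ℤ, u = (2 * d : ℤ) - ((2 * r + 3 : ℕ) : ℤ) * (k + 3) := ⟨_, rfl⟩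
  rw [← hu, abs_le] at h
  push_cast at hu
  have hd6 : 6 * (2 * r + 3) ≤ 2 * d + 2 := by
    have h1 : (6 : ℤ) * (2 * r + 3) ≤ 2 * d + 2 := by
      have hk' : (3 : ℤ) ≤ k := by exact_mod_cast hk
      have hr' : (0 : ℤ) ≤ r := by positivity
      nlinarith [mul_nonneg hr' (sub_nonneg.2 hk')]
    exact_mod_cast h1
  have hd1 : 1 ≤ d := by omega
  have c1 := hcnt d k (2 * r + 2) hd1 (by omega)
  have c0 := hcnt d k (2 * r + 1) hd1 (by omega)
  have o1 := horb d k (d * k + (2 * r + 2))
  have o0 := horb d k (d * k + (2 * r + 1))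
  refine ⟨d * k + (2 * r + 1), ?_⟩
  have hi : d * k + (2 * r + 1) + 1 = d * k + (2 * r + 2) := by ring
  rw [hi]
  obtain ⟨w1, f1, e1⟩ := c1
  obtain ⟨w0, f0, e0⟩ := c0
  obtain ⟨a1, b1⟩ := o1
  obtain ⟨a0, b0⟩ := o0
  generalize oo d k (d * k + (2 * r + 2)) = O1 at *
  generalize oo d k (d * k + (2 * r + 1)) = O0 at *
  generalize ss d k (d * k + (2 * r + 2)) = S1 at *
  generalize ss d k (d * k + (2 * r + 1)) = S0 at *
  generalize (W d k (d * k + (2 * r + 2))).card = W1 at *
  generalize (W d k (d * k + (2 * r + 1))).card = W0 at *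
  generalize ff d k (d * k + (2 * r + 2)) = F1 at *
  generalize ff d k (d * k + (2 * r + 1)) = F0 at *
  generalize ee d k (d * k + (2 * r + 2)) = E1 at *
  generalize ee d k (d * k + (2 * r + 1)) = E0 at *
  have hE1 : E1 ≤ 1 := by
    split_ifs at e1 <;> omega
  have hE0 : E0 ≤ 1 := by
    split_ifs at e0 <;> omega
  -- the difference of the dimensions
  have hW : 2 * ((W1 : ℤ) - W0) = k * u := by
    have w1' : (4 : ℤ) * W1 + (k + 1) * (k + 2) * ((2 * r + 2 + 1) * (2 * r + 2 + 2)) =
        2 * ((d * k + (2 * r + 2) + 1) * (d * k + (2 * r + 2) + 2)) := by exact_mod_cast w1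
    have w0' : (4 : ℤ) * W0 + (k + 1) * (k + 2) * ((2 * r + 1 + 1) * (2 * r + 1 + 2)) =
        2 * ((d * k + (2 * r + 1) + 1) * (d * k + (2 * r + 1) + 2)) := by exact_mod_cast w0
    have h1 : 2 * (2 * ((W1 : ℤ) - W0)) = 2 * (k * u) := by
      rw [hu]
      linear_combination w1' - w0'
    linarith
  -- the symmetric part
  have hF : (F1 : ℤ) - F0 = ((d * k + (2 * r + 2)) / 2 : ℕ) - ((d * k + (2 * r + 1)) / 2 : ℕ) - (k / 2 + 1 : ℕ) := by
    have h1 : (2 * r + 2) / 2 + 1 = r + 2 := by omega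
    have h2 : (2 * r + 1) / 2 + 1 = r + 1 := by omega
    rw [h1] at f1
    rw [h2] at f0
    generalize (d * k + (2 * r + 2)) / 2 = x at *
    generalize (d * k + (2 * r + 1)) / 2 = y at *
    generalize k / 2 + 1 = z at *
    have f1' : (F1 : ℤ) + z * (r + 2) = x + 1 := by exact_mod_cast f1
    have f0' : (F0 : ℤ) + z * (r + 1) = y + 1 := by exact_mod_cast f0
    linear_combination f1' - f0'
  have hpar : (d * k) % 2 = (d % 2) * (k % 2) := by
    rcases Nat.mod_two_eq_zero_or_one d with h1 | h1 <;> rcases Nat.mod_two_eq_zero_or_one k with h2 | h2 <;>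
      simp [Nat.mul_mod, h1, h2]
  -- u and the parities
  have hu' : u % 4 = (2 * d - (2 * r + 3) * (k + 3)) % 4 := by rw [hu]
  have hkey : (k : ℤ) * u + 6 * ((F1 : ℤ) - F0) + 4 * ((E1 : ℤ) - E0) < 0 ∧
      0 < (k : ℤ) * u - 6 * ((F1 : ℤ) - F0) + 4 * ((E1 : ℤ) - E0) := by
    rcases Nat.even_or_odd' k with ⟨c, hc | hc⟩
    · -- k even
      have hF' : (F1 : ℤ) - F0 = -c := by
        rw [hF]
        have : (d * k) % 2 = 0 := by rw [hpar, hc]; simp
        omega
      have hodd : u % 2 = 1 := by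
        have : (2 * (d : ℤ) - (2 * r + 3) * (k + 3)) = 2 * (d - (2 * r + 3) * c - 3 * r - 5) + 1 := by
          rw [hc]; push_cast; ring
        rw [hu, this]; omega
      have hu3 : u = 1 ∨ u = -1 := by omega
      have hkc : (k : ℤ) = 2 * c := by exact_mod_cast hc
      rw [hF']
      rcases hu3 with h3 | h3 <;> rw [h3] <;> constructor <;> omega
    · -- k odd
      have hkc : (k : ℤ) = 2 * c + 1 := by exact_mod_cast hc
      have heven : u % 2 = 0 := by
        have : (2 * (d : ℤ) - (2 * r + 3) * (k + 3)) = 2 * (d - (2 * r + 3) * (c + 2)) := by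
          rw [hkc]; ring
        rw [hu, this]; omega
      have hu3 : u = 0 ∨ u = 2 ∨ u = -2 := by omega
      rcases Nat.even_or_odd' d with ⟨e, he | he⟩
      · -- d even
        have hF' : (F1 : ℤ) - F0 = -c := by
          rw [hF]
          have : (d * k) % 2 = 0 := by rw [hpar, he]; simp
          omega
        rw [hF']
        rcases hu3 with h3 | h3
        · rw [h3]
          constructor <;> omega
        · have h11 : 11 ≤ k := by
            have hne : ¬ (k = 3 ∨ k = 7) := by
              intro hcon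
              have h5 := h37 hcon
              have h6 : (2 * d : ℤ) = (2 * r + 3) * (k + 3) := by exact_mod_cast h5
              omega
            -- c is odd
            have hcodd : c % 2 = 1 := by
              by_contra hcc
              obtain ⟨c', hc'⟩ : ∃ c', c = 2 * c' := ⟨c / 2, by omega⟩
              have : (2 * (d : ℤ) - (2 * r + 3) * (k + 3)) = 4 * (e - (2 * r + 3) * (c' + 1)) := by
                rw [hkc, he, hc']; push_cast; ring
              rw [this] at hu
              omega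
            omega
          rcases h3 with h3 | h3 <;> rw [h3] <;> constructor <;> omega
      · -- d odd
        have hF' : (F1 : ℤ) - F0 = -c - 1 := by
          rw [hF]
          have h1 : (2 * e + 1) % 2 = 1 := by omega
          have h2 : (2 * c + 1) % 2 = 1 := by omega
          have : (d * k) % 2 = 1 := by rw [hpar, he, hc, h1, h2]
          omega
        rw [hF']
        rcases hu3 with h3 | h3 | h3 <;> rw [h3] <;> constructor <;> omega
  constructor <;> omega

end Pool.Agent.V5helper30.W3
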