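import Pool.Agent.V5helper30.W3.Pos
import Pool.Agent.V5helper30.W3.NUM
import Pool.Agent.V5helper86.W3.CNT
import Pool.Agent.V5helper29.W3.NSUR
import Pool.Agent.V5helper29.W3.PS
import Pool.Agent.V5helper77.W3.P0
import Pool.Agent.V5helper26.W3.PT

/-!
# Project W3: the final steps
-/

set_option autoImplicit false

open MvPolynomial

namespace Pool.Agent.V5helper30.W3

open Pool.Agent.Helper720.Pow
open Pool.Agent.V5helper30.WL (Tst tst_of_slp dual)

variable {K : Type*} [Field K]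

theorem surj33 [CharZero K] : SurjAt K 3 3 1 3 1 := by
  have h := tst_of_slp (K := K) (n := 3) (d := 3) (k := 1) (by norm_num) (slp_k1 (by norm_num)) 3
  rcases h with h | h
  · exfalso
    have h2 := (dual (K := K) 3 3 1 3 0 (fun t => Fin.elim0 t) (by norm_num) linearIndependent_empty_type
      (fun t => Fin.elim0 t) (fun t => Fin.elim0 t) (fun t => Fin.elim0 t)).1 h
    rw [card_NN3, card_NN3] at h2
    revert h2
    decide
  · exact h

/-- the new failures -/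
theorem neg (horb : S_ORB) {d k t : ℕ} (ht : Odd t) (ht3 : 3 ≤ t) (hk : 3 ≤ k)
    (h : |(2 * d : ℤ) - t * (k + 3)| ≤ 2) (h37 : (k = 3 ∨ k = 7) → 2 * d = t * (k + 3)) : ¬ Tst K 3 d k := by
  intro hT
  have hd : 1 ≤ d := by
    rw [abs_le] at h
    by_contra hcon
    have hd0 : d = 0 := by omega
    subst hd0
    have h1 : 3 * 6 ≤ t * (k + 3) := Nat.mul_le_mul ht3 (by omega)
    have h2 : ((3 * 6 : ℕ) : ℤ) ≤ t * (k + 3) := by exact_mod_cast h1
    push_cast at h2 h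
    omega
  obtain ⟨i, h1, h2⟩ := num horb Pool.Agent.V5helper86.W3.t_CNT ht ht3 hk h h37
  rcases hT i with h3 | h3
  · exact t_NINJ K d k i hd h1 h3
  · exact Pool.Agent.V5helper29.W3.t_NSUR K d k i hd h2 h3

/-- for every `d ≥ 9` there is a failure with `k < d` -/
theorem neg_d (horb : S_ORB) {d : ℕ} (hd : 9 ≤ d) : ∃ k : ℕ, 3 ≤ k ∧ 3 * k ≤ 2 * d ∧ ¬ Tst K 3 d k := by
  refine ⟨(2 * d + 1) / 3 - 3, by omega, by omega, ?_⟩
  refine neg horb (t := 3) (by decide) le_rfl (by omega) ?_ ?_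
  · rw [abs_le]
    push_cast
    constructor <;> omega
  · rintro (h | h) <;> omega

/-- for every `k ≥ 3` there are infinitely many `d` -/
theorem neg_k (horb : S_ORB) {k : ℕ} (hk : 3 ≤ k) (D : ℕ) : ∃ d : ℕ, D < d ∧ k < d ∧ ¬ Tst K 3 d k := by
  rcases Nat.even_or_odd' k with ⟨c, hc | hc⟩
  · refine ⟨(2 * D + 3) * (c + 1) + D + 2, ?_, ?_, ?_⟩
    · nlinarith
    · nlinarith
    · refine neg horb (t := 2 * D + 3) ⟨D + 1, by ring⟩ (by omega) hk ?_ (by omega)
      have : (2 * (((2 * D + 3) * (c + 1) + D + 2 : ℕ) : ℤ)) - ((2 * D + 3 : ℕ) : ℤ) * (k + 3) = 1 := by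
        rw [hc]
        push_cast
        ring
      rw [this]
      norm_num
  · refine ⟨(2 * D + 3) * (c + 2), ?_, ?_, ?_⟩
    · nlinarith
    · nlinarith
    · have h0 : 2 * ((2 * D + 3) * (c + 2)) = (2 * D + 3) * (k + 3) := by
        rw [hc]
        ring
      refine neg horb (t := 2 * D + 3) ⟨D + 1, by ring⟩ (by omega) hk ?_ (fun _ => h0)
      have h1 : (2 * (((2 * D + 3) * (c + 2) : ℕ) : ℤ)) = ((2 * D + 3 : ℕ) : ℤ) * (k + 3) := by exact_mod_cast h0
      rw [h1, sub_self]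
      norm_num

theorem pos_all [CharZero K] (h1 : S_P1 K) {d k : ℕ} (hd : 1 ≤ d) (hk : 1 ≤ k) (h : d ≤ 2 ∨ (d ≤ k + 3 ∧ k < d)) :
    Tst K 3 d k := by
  rcases Nat.lt_or_ge d 3 with h3 | h3
  · rcases (by omega : d = 1 ∨ d = 2) with rfl | rfl
    · exact tst_of_slp le_rfl (slp_d1 (by norm_num))
    · exact pos_two (Pool.Agent.V5helper26.W3.t_PT K) hk
  · exact pos (Pool.Agent.V5helper77.W3.t_P0 K) h1 (Pool.Agent.V5helper29.W3.t_PS K) Pool.Agent.V5helper86.W3.t_CNT surj33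
      h3 hk (by omega) (by omega)

end Pool.Agent.V5helper30.W3
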