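import Pool.Agent.V5helper30.W3.Stm

/-!
# Project W3: the trivial representation
-/

set_option autoImplicit false

open MvPolynomial

namespace Pool.Agent.V5helper30.W3

open Pool.Agent.Helper720.Pow
open Pool.Agent.V5helper30.WL (NN mem_NN mem_anti)

variable {K : Type*} [Field K]

theorem mem_W {d k i a b c : ℕ} : (a, b, c) ∈ W d k i ↔ a + b + c = i ∧ a / d + b / d + c / d < k := by
  unfold W
  simp only [Finset.mem_filter, Finset.mem_product, Finset.mem_range]
  constructor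
  · rintro ⟨_, h⟩
    exact h
  · rintro ⟨h1, h2⟩
    exact ⟨⟨by omega, by omega, by omega⟩, h1, h2⟩

theorem W_swap1 {d k i a b c : ℕ} : (b, a, c) ∈ W d k i ↔ (a, b, c) ∈ W d k i := by
  rw [mem_W, mem_W]
  constructor <;> rintro ⟨h1, h2⟩ <;> exact ⟨by omega, by omega⟩

theorem W_swap2 {d k i a b c : ℕ} : (a, c, b) ∈ W d k i ↔ (a, b, c) ∈ W d k i := by
  rw [mem_W, mem_W]
  constructor <;> rintro ⟨h1, h2⟩ <;> exact ⟨by omega, by omega⟩

/-- the sorted triple -/
def srt (a b c : ℕ) : ℕ × ℕ × ℕ :=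
  if b ≤ a then (if c ≤ b then (a, b, c) else if c ≤ a then (a, c, b) else (c, a, b))
  else (if c ≤ a then (b, a, c) else if c ≤ b then (b, c, a) else (c, b, a))

theorem srt_swap1 (a b c : ℕ) : srt b a c = srt a b c := by
  unfold srt
  split_ifs <;> first | rfl | (exfalso; omega) | (refine Prod.ext ?_ (Prod.ext ?_ ?_) <;> simp only <;> omega)

theorem srt_swap2 (a b c : ℕ) : srt a c b = srt a b c := by
  unfold srt
  split_ifs <;> first | rfl | (exfalso; omega) | (refine Prod.ext ?_ (Prod.ext ?_ ?_) <;> simp only <;> omega)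

/-- a property which is invariant under the two swaps, holds if it holds for the sorted triple -/
theorem of_srt {P : ℕ → ℕ → ℕ → Prop} (h1 : ∀ a b c, P b a c → P a b c) (h2 : ∀ a b c, P a c b → P a b c)
    (a b c : ℕ) (h : P (srt a b c).1 (srt a b c).2.1 (srt a b c).2.2) : P a b c := by
  unfold srt at h
  split_ifs at h
  · exact h
  · exact h2 _ _ _ h
  · exact h2 _ _ _ (h1 _ _ _ h)
  · exact h1 _ _ _ h
  · exact h1 _ _ _ (h2 _ _ _ h)
  · exact h1 _ _ _ (h2 _ _ _ (h1 _ _ _ h))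

/-- the other direction -/
theorem to_srt {P : ℕ → ℕ → ℕ → Prop} (h1 : ∀ a b c, P b a c → P a b c) (h2 : ∀ a b c, P a c b → P a b c)
    (a b c : ℕ) (h : P a b c) : P (srt a b c).1 (srt a b c).2.1 (srt a b c).2.2 := by
  unfold srt
  split_ifs
  · exact h
  · exact h2 _ _ _ h
  · exact h1 _ _ _ (h2 _ _ _ h)
  · exact h1 _ _ _ h
  · exact h2 _ _ _ (h1 _ _ _ h)
  · exact h1 _ _ _ (h2 _ _ _ (h1 _ _ _ h))

theorem srt_sorted (a b c : ℕ) : (srt a b c).2.1 ≤ (srt a b c).1 ∧ (srt a b c).2.2 ≤ (srt a b c).2.1 := by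
  unfold srt
  split_ifs <;> constructor <;> simp only <;> omega

theorem srt_of_sorted {a b c : ℕ} (h1 : b ≤ a) (h2 : c ≤ b) : srt a b c = (a, b, c) := by
  unfold srt
  rw [if_pos h1, if_pos h2]

/-- the sorted triples -/
def O (d k i : ℕ) : Finset (ℕ × ℕ × ℕ) := (W d k i).filter fun p => p.2.1 ≤ p.1 ∧ p.2.2 ≤ p.2.1

theorem srt_mem_O {d k i a b c : ℕ} (h : (a, b, c) ∈ W d k i) : srt a b c ∈ O d k i := by
  unfold O
  rw [Finset.mem_filter]
  refine ⟨?_, srt_sorted a b c⟩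
  exact to_srt (P := fun a b c => (a, b, c) ∈ W d k i) (fun a b c h => W_swap1.1 h) (fun a b c h => W_swap2.1 h) a b c h

/-- the sum over the predecessors -/
def step (φ : ℕ → ℕ → ℕ → K) (a b c : ℕ) : K :=
  (if a = 0 then 0 else φ (a - 1) b c) + (if b = 0 then 0 else φ a (b - 1) c) + (if c = 0 then 0 else φ a b (c - 1))

theorem step_swap1 {φ : ℕ → ℕ → ℕ → K} (h1 : ∀ a b c, φ b a c = φ a b c) (a b c : ℕ) :
    step φ b a c = step φ a b c := by
  unfold step
  rw [h1 a (b - 1) c, h1 (a - 1) b c, h1 a b (c - 1)]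
  ring

theorem step_swap2 {φ : ℕ → ℕ → ℕ → K} (h2 : ∀ a b c, φ a c b = φ a b c) (a b c : ℕ) :
    step φ a c b = step φ a b c := by
  unfold step
  rw [h2 (a - 1) b c, h2 a b (c - 1), h2 a (b - 1) c]
  ring

/-- the triple of an exponent vector -/
theorem deg3 (m : Fin 3 →₀ ℕ) : m.degree = m 0 + m 1 + m 2 := by
  rw [Finsupp.degree_eq_sum, Fin.sum_univ_three]

theorem fl3 (d : ℕ) (m : Fin 3 →₀ ℕ) : fl d m = m 0 / d + m 1 / d + m 2 / d := by
  unfold fl
  rw [Fin.sum_univ_three]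

theorem mem_NN3 {d k i : ℕ} {m : Fin 3 →₀ ℕ} : m ∈ NN 3 d k i ↔ (m 0, m 1, m 2) ∈ W d k i := by
  rw [mem_NN, mem_W, deg3, fl3]

/-- the polynomial with given coefficients -/
noncomputable def pol (d k i : ℕ) (φ : ℕ → ℕ → ℕ → K) : MvPolynomial (Fin 3) K :=
  ∑ m ∈ NN 3 d k i, monomial m (φ (m 0) (m 1) (m 2))

theorem coeff_pol (d k i : ℕ) (φ : ℕ → ℕ → ℕ → K) (m : Fin 3 →₀ ℕ) :
    coeff m (pol d k i φ) = if m ∈ NN 3 d k i then φ (m 0) (m 1) (m 2) else 0 := by
  classical
  unfold pol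
  rw [coeff_sum]
  simp only [coeff_monomial]
  rw [Finset.sum_ite_eq' (NN 3 d k i) m]

theorem pol_hom (d k i : ℕ) (φ : ℕ → ℕ → ℕ → K) : (pol d k i φ).IsHomogeneous i := by
  refine MvPolynomial.IsHomogeneous.sum _ _ _ fun m hm => ?_
  exact isHomogeneous_monomial _ (mem_NN.1 hm).1

theorem sub_mem {d k i : ℕ} {w : Fin 3 →₀ ℕ} {c : Fin 3} (hw : w ∈ NN 3 d k (i + 1)) (hc : w c ≠ 0) :
    w - Finsupp.single c 1 ∈ NN 3 d k i := by
  rw [mem_NN] at hw ⊢
  refine ⟨?_, lt_of_le_of_lt ?_ hw.2⟩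
  · have := degree_sub_single hc
    omega
  · unfold fl
    refine Finset.sum_le_sum fun j _ => Nat.div_le_div_right ?_
    rw [Finsupp.tsub_apply]
    exact Nat.sub_le _ _

theorem coeff_el_pol {d k i : ℕ} (φ : ℕ → ℕ → ℕ → K) {w : Fin 3 →₀ ℕ} (hw : w ∈ NN 3 d k (i + 1)) :
    coeff w (el K 3 * pol d k i φ) = step φ (w 0) (w 1) (w 2) := by
  rw [coeff_el_mul, Fin.sum_univ_three]
  unfold step
  congr 1
  · congr 1
    · by_cases h : w 0 = 0
      · rw [if_pos h, if_pos h]
      · rw [if_neg h, if_neg h, coeff_pol, if_pos (sub_mem hw h)]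
        simp
    · by_cases h : w 1 = 0
      · rw [if_pos h, if_pos h]
      · rw [if_neg h, if_neg h, coeff_pol, if_pos (sub_mem hw h)]
        simp
  · by_cases h : w 2 = 0
    · rw [if_pos h, if_pos h]
    · rw [if_neg h, if_neg h, coeff_pol, if_pos (sub_mem hw h)]
      simp

theorem t_NINJ (K : Type*) [Field K] : S_NINJ K := by
  classical
  intro d k i hd hcard hinj
  let ph : (O d k i → K) → ℕ → ℕ → ℕ → K := fun v a b c =>
    if h : srt a b c ∈ O d k i then v ⟨srt a b c, h⟩ else 0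
  have ph_add : ∀ v v' a b c, ph (v + v') a b c = ph v a b c + ph v' a b c := by
    intro v v' a b c
    simp only [ph]
    split_ifs
    · rfl
    · rw [add_zero]
  have ph_smul : ∀ (s : K) v a b c, ph (s • v) a b c = s * ph v a b c := by
    intro s v a b c
    simp only [ph]
    split_ifs
    · rfl
    · rw [mul_zero]
  have ph1 : ∀ v a b c, ph v b a c = ph v a b c := by
    intro v a b c
    simp only [ph, srt_swap1 a b c]
  have ph2 : ∀ v a b c, ph v a c b = ph v a b c := by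
    intro v a b c
    simp only [ph, srt_swap2 a b c]
  let T : (O d k i → K) →ₗ[K] (O d k (i + 1) → K) :=
    { toFun := fun v w => step (ph v) w.1.1 w.1.2.1 w.1.2.2
      map_add' := fun v v' => by
        funext w
        simp only [step, ph_add, Pi.add_apply]
        split_ifs <;> ring
      map_smul' := fun s v => by
        funext w
        simp only [step, ph_smul, Pi.smul_apply, smul_eq_mul, RingHom.id_apply]
        split_ifs <;> ring }
  have hker : LinearMap.ker T ≠ ⊥ := by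
    apply LinearMap.ker_ne_bot_of_finrank_lt
    rw [Module.finrank_fintype_fun_eq_card, Module.finrank_fintype_fun_eq_card, Fintype.card_coe, Fintype.card_coe]
    exact hcard
  obtain ⟨v, hv, hv0⟩ := Submodule.exists_mem_ne_zero_of_ne_bot hker
  have hz : ∀ a b c, (a, b, c) ∈ W d k (i + 1) → step (ph v) a b c = 0 := by
    intro a b c habc
    refine of_srt (P := fun a b c => step (ph v) a b c = 0) (fun a b c h => ?_) (fun a b c h => ?_) a b c ?_
    · rwa [step_swap1 (ph1 v)] at h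
    · rwa [step_swap2 (ph2 v)] at h
    · have := congrFun (LinearMap.mem_ker.1 hv) ⟨srt a b c, srt_mem_O habc⟩
      exact this
  have hmem : el K 3 ^ 1 * pol d k i (ph v) ∈ powIdeal K 3 d k := by
    have hh : (el K 3 ^ 1 * pol d k i (ph v)).IsHomogeneous (i + 1) := by
      have := (el_hom (K := K) (n := 3)).mul (pol_hom d k i (ph v))
      rwa [add_comm, ← pow_one (el K 3)] at this
    refine mem_of_coeff hd hh fun w hw hflw => ?_
    have hw' : w ∈ NN 3 d k (i + 1) := mem_NN.2 ⟨hw, hflw⟩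
    rw [pow_one, coeff_el_pol _ hw']
    exact hz _ _ _ (mem_NN3.1 hw')
  have hf := hinj _ (pol_hom d k i (ph v)) hmem
  rw [mem_powIdeal hd] at hf
  apply hv0
  funext p
  obtain ⟨⟨a, b, c⟩, hp⟩ := p
  have hp' := hp
  unfold O at hp'
  rw [Finset.mem_filter] at hp'
  obtain ⟨hW, h1, h2⟩ := hp'
  simp only at h1 h2
  set m : Fin 3 →₀ ℕ := Finsupp.equivFunOnFinite.symm ![a, b, c] with hm
  have m0 : m 0 = a := rfl
  have m1 : m 1 = b := rfl
  have m2 : m 2 = c := rfl
  have hmN : m ∈ NN 3 d k i := by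
    rw [mem_NN3, m0, m1, m2]
    exact hW
  have h3 := hf m (mem_NN.1 hmN).2
  rw [coeff_pol, if_pos hmN, m0, m1, m2] at h3
  simp only [ph, srt_of_sorted h1 h2] at h3
  rw [dif_pos hp] at h3
  exact h3

end Pool.Agent.V5helper30.W3
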