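import Pool.Agent.V5helper30.W3.NINJ
import Pool.Agent.V5helper30.WL.Asm
import Pool.Agent.V5helper48.WL.Cert

/-!
# Project W3: the positive part
-/

set_option autoImplicit false

open MvPolynomial

namespace Pool.Agent.V5helper30.W3

open Pool.Agent.Helper720.Pow
open Pool.Agent.V5helper30.WL (NN mem_NN mem_anti Tst)

variable {K : Type*} [Field K]

theorem card_NN3 (d k i : ℕ) : (NN 3 d k i).card = (W d k i).card := by
  refine Finset.card_bij' (fun m _ => (m 0, m 1, m 2))
    (fun p _ => Finsupp.equivFunOnFinite.symm ![p.1, p.2.1, p.2.2]) ?_ ?_ ?_ ?_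
  · intro m hm
    exact mem_NN3.1 hm
  · intro p hp
    rw [mem_NN3]
    exact hp
  · intro m _
    ext c
    fin_cases c <;> rfl
  · intro p _
    rfl

theorem surj_of_inj {n d k i : ℕ} (hd : 1 ≤ d) (hc : (NN n d k i).card = (NN n d k (i + 1)).card)
    (hinj : InjAt K n d k i 1) : SurjAt K n d k i 1 := by
  classical
  let ext' : (NN n d k i → K) → MvPolynomial (Fin n) K := fun f => ∑ m : NN n d k i, monomial m.1 (f m)
  have hext : ∀ f (m : Fin n →₀ ℕ), coeff m (ext' f) = if h : m ∈ NN n d k i then f ⟨m, h⟩ else 0 := by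
    intro f m
    show coeff m (∑ m' : NN n d k i, monomial m'.1 (f m')) = _
    rw [coeff_sum]
    split_ifs with h
    · rw [Finset.sum_eq_single (⟨m, h⟩ : NN n d k i)]
      · rw [coeff_monomial, if_pos rfl]
      · intro b _ hb
        rw [coeff_monomial, if_neg]
        intro hbm
        exact hb (Subtype.ext hbm)
      · intro h'
        exact absurd (Finset.mem_univ _) h'
    · refine Finset.sum_eq_zero fun b _ => ?_
      rw [coeff_monomial, if_neg]
      intro hbm
      exact h (hbm ▸ b.2)
  have hadd : ∀ f g, ext' (f + g) = ext' f + ext' g := by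
    intro f g
    show ∑ m : NN n d k i, monomial m.1 ((f + g) m) = _
    rw [← Finset.sum_add_distrib]
    refine Finset.sum_congr rfl fun m _ => ?_
    rw [Pi.add_apply, map_add]
  have hsm : ∀ (a : K) f, ext' (a • f) = a • ext' f := by
    intro a f
    show ∑ m : NN n d k i, monomial m.1 ((a • f) m) = _
    rw [Finset.smul_sum]
    refine Finset.sum_congr rfl fun m _ => ?_
    rw [Pi.smul_apply, smul_monomial]
  have hhomf : ∀ f, (ext' f).IsHomogeneous i := by
    intro f
    refine MvPolynomial.IsHomogeneous.sum _ _ _ fun m _ => ?_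
    exact isHomogeneous_monomial _ (mem_NN.1 m.2).1
  have hhom1 : ∀ f, (el K n * ext' f).IsHomogeneous (i + 1) := by
    intro f
    have := el_hom (K := K) (n := n) |>.mul (hhomf f)
    rwa [add_comm] at this
  let μ : (NN n d k i → K) →ₗ[K] (NN n d k (i + 1) → K) :=
    { toFun := fun f w => coeff w.1 (el K n * ext' f)
      map_add' := fun f g => by
        funext w
        rw [hadd, mul_add, coeff_add]
        rfl
      map_smul' := fun a f => by
        funext w
        rw [hsm, mul_smul_comm, coeff_smul]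
        rfl }
  have hμ : Function.Injective μ := by
    rw [← LinearMap.ker_eq_bot, LinearMap.ker_eq_bot']
    intro f hf
    have h1 : el K n ^ 1 * ext' f ∈ powIdeal K n d k := by
      rw [pow_one]
      refine mem_of_coeff hd (hhom1 f) fun w hw hflw => ?_
      exact congrFun hf ⟨w, mem_NN.2 ⟨hw, hflw⟩⟩
    have h2 := hinj (ext' f) (hhomf f) h1
    rw [mem_powIdeal hd] at h2
    funext m
    have h3 := h2 m.1 (mem_NN.1 m.2).2
    rw [hext, dif_pos m.2] at h3
    exact h3
  have hfin : Module.finrank K (NN n d k i → K) = Module.finrank K (NN n d k (i + 1) → K) := by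
    rw [Module.finrank_fintype_fun_eq_card, Module.finrank_fintype_fun_eq_card, Fintype.card_coe, Fintype.card_coe, hc]
  have hsurj : Function.Surjective μ := (LinearMap.injective_iff_surjective_of_finrank_eq_finrank hfin).1 hμ
  intro g hg
  obtain ⟨v, hv⟩ := hsurj (fun w => coeff w.1 g)
  refine ⟨ext' v, hhomf v, ?_⟩
  rw [pow_one]
  refine mem_of_coeff hd (hg.sub (hhom1 v)) fun w hw hflw => ?_
  have h1 := congrFun hv ⟨w, mem_NN.2 ⟨hw, hflw⟩⟩
  have h2 : coeff w (el K n * ext' v) = coeff w g := h1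
  rw [coeff_sub, h2, sub_self]

theorem inj_le {d k i₀ : ℕ} (hd : 2 ≤ d) (hk : 1 ≤ k) (hi₀ : i₀ ≤ d * k) (h : InjAt K 3 d k i₀ 1) (i : ℕ) (hi : i ≤ i₀) :
    InjAt K 3 d k i 1 := by
  induction i₀, hi using Nat.le_induction with
  | base => exact h
  | succ j hj ih =>
    refine ih (by omega) ?_
    refine Pool.Agent.V5helper48.WL.down1 (by norm_num) (by omega) ?_ h
    obtain ⟨k', rfl⟩ : ∃ k', k = k' + 1 := ⟨k - 1, by omega⟩
    rw [Nat.add_sub_cancel]
    have : d * (k' + 1) = d * k' + d := by ring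
    omega

theorem surj_ge {d k i₀ : ℕ} (h : SurjAt K 3 d k i₀ 1) (i : ℕ) (hi : i₀ ≤ i) : SurjAt K 3 d k i 1 := by
  induction i, hi using Nat.le_induction with
  | base => exact h
  | succ j _ ih => exact Pool.Agent.V5helper48.WL.up1 ih

theorem bij_case [CharZero K] (h1 : S_P1 K) (hcnt : S_CNT) {d k : ℕ} (hk : 1 ≤ k) (hd : d = k + 3) :
    SurjAt K 3 d k (d * k) 1 := by
  refine surj_of_inj (by omega) ?_ (h1 d k hk (by omega))
  rw [card_NN3, card_NN3]
  have c0 := (hcnt d k 0 (by omega) (by omega)).1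
  have c1 := (hcnt d k 1 (by omega) (by omega)).1
  subst hd
  rw [add_zero] at c0
  generalize (W (k + 3) k ((k + 3) * k)).card = A at *
  generalize (W (k + 3) k ((k + 3) * k + 1)).card = B at *
  have h2 : (4 * (A : ℤ)) = 4 * B := by
    have c0' : 4 * (A : ℤ) + (k + 1) * (k + 2) * ((0 + 1) * (0 + 2)) = 2 * (((k + 3) * k + 1) * ((k + 3) * k + 2)) := by
      exact_mod_cast c0
    have c1' : 4 * (B : ℤ) + (k + 1) * (k + 2) * ((1 + 1) * (1 + 2)) =
        2 * (((k + 3) * k + 1 + 1) * ((k + 3) * k + 1 + 2)) := by exact_mod_cast c1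
    linear_combination c0' - c1'
  omega

/-- surjectivity from degree `d k`, for `d - 3 ≤ k` -/
theorem surj_all [CharZero K] (h1 : S_P1 K) (hs : S_PS K) (hcnt : S_CNT) (h3 : SurjAt K 3 3 1 3 1) {d : ℕ} (hd : 3 ≤ d)
    (k : ℕ) (hk : 1 ≤ k) (hdk : d ≤ k + 3) : SurjAt K 3 d k (d * k) 1 := by
  induction k with
  | zero => omega
  | succ k ih =>
    rcases Nat.lt_or_ge (k + 3) d with h | h
    · exact bij_case h1 hcnt hk (by omega)
    · rcases Nat.eq_zero_or_pos k with h0 | h0
      · subst h0
        have hd3 : d = 3 := by omega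
        subst hd3
        exact h3
      · have h4 := hs d (k + 1) (by omega) (by omega)
        rw [Nat.add_sub_cancel] at h4
        exact h4 (ih h0 h)

theorem pos [CharZero K] (h0 : S_P0 K) (h1 : S_P1 K) (hs : S_PS K) (hcnt : S_CNT) (h3 : SurjAt K 3 3 1 3 1) {d k : ℕ}
    (hd : 3 ≤ d) (hk : 1 ≤ k) (hdk : d ≤ k + 3) (hkd : k < d) : Tst K 3 d k := by
  intro i
  have hS := surj_all h1 hs hcnt h3 hd k hk hdk
  rcases Nat.lt_or_ge i (d * k) with h | h
  · left
    exact inj_le (by omega) hk (by omega) (h0 d k hk hkd) i (by omega)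
  · right
    exact surj_ge hS i h

theorem pos_two [CharZero K] (ht : S_PT K) {k : ℕ} (hk : 1 ≤ k) : Tst K 3 2 k := by
  intro i
  rcases Nat.lt_or_ge i (2 * k - 1) with h | h
  · left
    intro f hf hmem
    rw [pow_one, mem_powIdeal (by norm_num)] at hmem
    have hz : el K 3 * f = 0 := by
      ext w
      rw [coeff_zero]
      by_contra hne
      have hh : (el K 3 * f).IsHomogeneous (1 + i) := (el_hom (K := K) (n := 3)).mul hf
      have hdeg := degree_of_coeff hh hne
      refine hne (hmem w ?_)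
      rw [fl3]
      rw [deg3] at hdeg
      omega
    have hel : el K 3 ≠ 0 := by
      intro h0
      have h5 := congrArg (pderiv (0 : Fin 3)) h0
      rw [pderiv_el, map_zero] at h5
      exact one_ne_zero h5
    rcases mul_eq_zero.1 hz with h2 | h2
    · exact absurd h2 hel
    · rw [h2]
      exact Ideal.zero_mem _
  · right
    exact surj_ge (ht k hk) i h

end Pool.Agent.V5helper30.W3
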