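import Pool.Agent.V5helper30.WL.Dual

/-!
# Project W3: the weak Lefschetz property of `S / (x^d, y^d, z^d)^k` in THREE variables. Statements.

New: it fails for many `k < d` (the smallest is `(d, k) = (9, 3)`), because the multiplication by `x + y + z` is equivariant for the
symmetric group `S_3` and the multiplicities of the trivial and of the sign representation go in opposite directions.
`InjAt K n d k i 1`, `SurjAt K n d k i 1`, `powIdeal`, `fl`, `el` are in `Pool.Agent.Helper720.Pow*` (`el` is the sum of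
the variables; `fl d m = ∑ j, m j / d`; `mem_powIdeal`: a polynomial is in `powIdeal K n d k` iff all its monomials `m` have
`k ≤ fl d m`; `coeff_el_mul`; `mem_of_coeff`); `NN`, `mem_NN` in `Pool.Agent.V5helper30.WL`.
-/

set_option autoImplicit false

open MvPolynomial

namespace Pool.Agent.V5helper30.W3

open Pool.Agent.Helper720.Pow

/-- the triples `(a, b, c)` with `a + b + c = i` and `⌊a/d⌋ + ⌊b/d⌋ + ⌊c/d⌋ < k` -/
def W (d k i : ℕ) : Finset (ℕ × ℕ × ℕ) :=
  (Finset.range (i + 1) ×ˢ (Finset.range (i + 1) ×ˢ Finset.range (i + 1))).filter fun p =>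
    p.1 + p.2.1 + p.2.2 = i ∧ p.1 / d + p.2.1 / d + p.2.2 / d < k

/-- the sorted triples -/
def oo (d k i : ℕ) : ℕ := ((W d k i).filter fun p => p.2.1 ≤ p.1 ∧ p.2.2 ≤ p.2.1).card

/-- the strictly sorted triples -/
def ss (d k i : ℕ) : ℕ := ((W d k i).filter fun p => p.2.1 < p.1 ∧ p.2.2 < p.2.1).card

def ff (d k i : ℕ) : ℕ := ((W d k i).filter fun p => p.1 = p.2.1).card

def ee (d k i : ℕ) : ℕ := ((W d k i).filter fun p => p.1 = p.2.1 ∧ p.2.1 = p.2.2).card

/-- ORB (100 lines). Proof. `W` is symmetric. Pointwise (trichotomy of `a, b`, of `b, c` and of `a, c`): the number of the six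
permutations which sort `(a,b,c)` is `1 + [a=b] + [b=c] + [a=c] + 2 [a=b=c]`; the number of those which sort it strictly
is `1 - [a=b] - [b=c] - [a=c] + 2 [a=b=c]`. Sum over `W` and use the bijections of `W` given by the permutations
(`Finset.card_bij'`). -/
def S_ORB : Prop := ∀ d k i : ℕ,
  6 * oo d k i = (W d k i).card + 3 * ff d k i + 2 * ee d k i ∧
  6 * ss d k i + 3 * ff d k i = (W d k i).card + 2 * ee d k i

/-- CNT (150 lines). Proof. Let `i = d k + j`, `j < d`. All triples `(a,b,c)` with `a+b+c = i`: `(i+1)(i+2)/2` (for instance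
induction on `i`); a triple with sum `i` and `⌊a/d⌋ + ⌊b/d⌋ + ⌊c/d⌋ ≥ k` has this sum `= k`, and
`a = d α + a'` … gives a bijection with the pairs (triple `(α,β,γ)` with sum `k`, triple `(a',b',c')` with sum `j`; then `a',b',c' < d`
automatically). The same with `a = b` (`2 a + c = i`: `i/2+1` solutions) and with `a = b = c`. -/
def S_CNT : Prop := ∀ d k j : ℕ, 1 ≤ d → j < d →
  4 * (W d k (d * k + j)).card + (k + 1) * (k + 2) * ((j + 1) * (j + 2)) = 2 * ((d * k + j + 1) * (d * k + j + 2)) ∧
  ff d k (d * k + j) + (k / 2 + 1) * (j / 2 + 1) = (d * k + j) / 2 + 1 ∧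
  ee d k (d * k + j) + (if 3 ∣ k ∧ 3 ∣ j then 1 else 0) = if 3 ∣ d * k + j then 1 else 0

/-- NINJ (120 lines). Proof. Symmetric functions `φ` on the triples of `W d k i`: `φ (a,b,c) = v (sorted (a,b,c))`,
`v : {sorted triples of W d k i} → K`. The coefficient of `el * ∑ φ (m) x^m` at `w` (with `w` in `NN 3 d k (i+1)`) is
`∑_c [w_c ≠ 0] φ (w - e_c)`, a symmetric function of `w`. As `oo (i+1) < oo i` there is `v ≠ 0` such that it vanishes for all
sorted `w` (`LinearMap.ker_ne_bot_of_finrank_lt`), so for all `w`; then `el * f ∈ powIdeal`, `f ∉ powIdeal`. -/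
def S_NINJ (K : Type*) [Field K] : Prop := ∀ d k i : ℕ, 1 ≤ d → oo d k (i + 1) < oo d k i → ¬ InjAt K 3 d k i 1

/-- NSUR (120 lines). Proof. Antisymmetric functions `lam` on the triples of `W d k (i+1)`, zero outside `W d k (i+1)`: `lam (a,b,c) =
ε (a,b,c) * v (sorted (a,b,c))`, `ε = sign (a-b) sign (b-c) sign (a-c)`, `v : {strictly sorted triples of W d k (i+1)} → K`.
As `ss i < ss (i+1)` there is `v ≠ 0` with `lam (m+e_0) + lam (m+e_1) + lam (m+e_2) = 0` for all strictly sorted `m` of `W d k i`, so for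
all `m` of `W d k i` (antisymmetric in `m`; zero if two entries are equal). The functional `g ↦ ∑_w lam w * coeff w g` vanishes on
`powIdeal` and on `el * f` (`f` homogeneous of degree `i`), but not on all monomials. -/
def S_NSUR (K : Type*) [Field K] : Prop := ∀ d k i : ℕ, 1 ≤ d → ss d k i < ss d k (i + 1) → ¬ SurjAt K 3 d k i 1

/-! ### Positive part (characteristic zero) -/

/-- P0 (120 lines). Let `k < d`; then the multiplication from degree `d k - 1` is injective. Proof. `f` homogeneous of degree `d k - 1`,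
`el * f ∈ (x^d,y^d,z^d)^k` has degree `d k`, so `el * f = P(x^d,y^d,z^d)` with `P` a form of degree `k`. Over an
algebraic closure (or: choose the extension with the `d`-th roots of unity; injectivity descends, or work with
`Polynomial`): `P (x^d, y^d, z^d)` is divisible by all the `d^2` forms `x + ζ y + η z`, `ζ^d = η^d = 1`, which are pairwise coprime
primes, so by their product of degree `d^2 > d k`; so `P = 0`. -/
def S_P0 (K : Type*) [Field K] [CharZero K] : Prop := ∀ d k : ℕ, 1 ≤ k → k < d → InjAt K 3 d k (d * k - 1) 1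

/-- P1 (200 lines). Let `1 ≤ k ≤ d - 3`; then the multiplication from degree `d k` is injective. Proof. `f` of degree `d k`,
`el * f ∈ (x^d,y^d,z^d)^k` has degree `d k + 1`, so `el * f = x Q1 + y Q2 + z Q3` with `Q_l = Q_l (x^d,y^d,z^d)` forms of degree `k` in
`x^d,y^d,z^d`. Modulo `el`, `z = -x-y`: `x R1 + y R2 = 0` on the line `x+y+z=0` with `R1 = Q1 - Q3`, `R2 = Q2 - Q3`. For
`ζ^d = η^d = 1`, `1, ζ, η` distinct (over an algebraic closure), the point `p = (x,y,z)` with `x+y+z = 0`, `x+ζy+ηz = 0` and the point `p' = (x,ζy,ηz)`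
both are on the line, and `R1, R2` have the same values at `p`, `p'`; the points are not proportional, so `R1 = R2 = 0` at `p`.
These are `(d-1)(d-2) > d k` distinct points of the line (`x = η-ζ`, `y = 1-η`, `z = ζ-1`), so `R1, R2` vanish on the line: `el ∣ R1`,
`R1` is in `(x^d,y^d,z^d)^k`, so by the argument of P0 (`k < d`) `R1 = 0`, `R2 = 0`, and `el * f = el * Q3`, `f = Q3` is in the ideal. -/
def S_P1 (K : Type*) [Field K] [CharZero K] : Prop := ∀ d k : ℕ, 1 ≤ k → k + 3 ≤ d → InjAt K 3 d k (d * k) 1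

/-- PS (80 lines). Proof. `g` of degree `d k + 1`, `k ≥ 2`. Modulo `el` one may replace `z` by `-x-y`, so `g` is a combination of `x^a y^b`,
`a+b = d k + 1 ≥ 2 d - 1`: `a ≥ d` or `b ≥ d`: `g = x^d g1 + y^d g2 + el * f0`, with `g1, g2` homogeneous of degree `d (k-1) + 1`; apply the
hypothesis to them; `x^d * (x^d,y^d,z^d)^(k-1) ⊆ (x^d,y^d,z^d)^k`. -/
def S_PS (K : Type*) [Field K] [CharZero K] : Prop := ∀ d k : ℕ, 1 ≤ d → 2 ≤ k → SurjAt K 3 d (k - 1) (d * (k - 1)) 1 →
  SurjAt K 3 d k (d * k) 1

/-- PT (60 lines). Proof. `(x^2,y^2,z^2)` modulo `x+y+z` contains `x^2, y^2, x y` (`2 x y = (x+y)^2 - x^2 - y^2`), so its `k`-th power contains all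
forms of degree `2 k` in `x, y`: every `g` of degree `2 k` is `el * f + (element of the ideal)`. (Induction on `k`: `g = x^2 g1 + x y g2 + y^2 g3`
modulo `el`.) -/
def S_PT (K : Type*) [Field K] [CharZero K] : Prop := ∀ k : ℕ, 1 ≤ k → SurjAt K 3 2 k (2 * k - 1) 1

end Pool.Agent.V5helper30.W3
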